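import Pool.Agent.R898.BEq

/-!
# The Bloch–Beilinson filtration with `F^2 = ker(AJ)` as an annihilation statement

Let `𝒱` be a class of smooth projective varieties which is closed under products (for example all of
them, or the abelian varieties), with Chow groups `C` (rational coefficients), a Weil cohomology
theory `W` for which the standard conjecture of Künneth type holds on `𝒱`, and an Abel–Jacobi map
`A`. A degree operator of `X` is a correspondence `d` in `CH^(dim X)(X × X)` which acts on `H^m(X)`
as multiplication by `m`, for all `m`.

**Theorem.** A filtration with the properties 1 to 4 of the problem exists on the class `𝒱` if and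
only if for all `X` in `𝒱`, all `j` and all degree operators `d` of `X`

* `(d - j) (d - (j + 1)) ⋯ (d - 2j)` annihilates `CH^j(X)`, and
* `(d - j) (d - (j + 1)) ⋯ (d - (2j - 2))` annihilates the kernel of the Abel–Jacobi map on
  `CH^j(X)_hom`.

In this case `F^k CH^j(X)` is the kernel of `(d - j) (d - (j + 1)) ⋯ (d - (2j - k))` on `CH^j(X)`,
for every degree operator `d` of `X`; in particular the filtration is unique.
-/

open Pool.Agent.H914 Pool.Agent.R903 Pool.Agent.R898

universe u v w

namespace Pool.Agent.Results.MP_08891c_ag.AbelJacobiAnnihilation

theorem result {k : Type u} [Field k] {𝒱 : VarClass k} {C : ChowTheory.{u, v} 𝒱}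
    {W : WeilTheory.{u, v, w} C} (A : B.AJMap W) (hP : C.Polarized) (hK : W.Kunneth) :
    ((∃ F, B.IsBB A F) ↔ B.Annihilates A) ∧ ∀ F, B.IsBB A F → B.IsGiven W F :=
  exists_isBB_iff A hK hP

end Pool.Agent.Results.MP_08891c_ag.AbelJacobiAnnihilation
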