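import Pool.Agent.R903.LefBBEq

/-!
# The Lefschetz standard conjecture and the Bloch–Beilinson filtration as an equation in Chow groups

Let `𝒱` be a class of smooth projective varieties which is closed under products (for example all of
them), with Chow groups `C` (rational coefficients), a Weil cohomology theory `W` and an Abel–Jacobi
map `A`. For each `X` in `𝒱` let `L_X` be a correspondence in `CH^(dim X + 1)(X × X)` with the hard
Lefschetz property, for example `L_X = Δ_* D` for an ample divisor class `D`.

**Theorem.** The Lefschetz standard conjecture holds for the `L_X` and a filtration with the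
properties 1 to 4 of the problem exists on `𝒱` if and only if for each `X` in `𝒱` there are
correspondences `L`, homologically equivalent to `L_X`, and `Λ` in `CH^(dim X - 1)(X × X)` such that
in the Chow groups

* `[L, [L, Λ]] = -2 L`,

and such that `h = [L, Λ]` has the following properties:

* there is no nonzero homologically trivial `γ` in `CH^(dim X)(X × X)` with `[h, γ] = w γ` for an
  integer `w ≥ 0`, and
* for all `j` there is no nonzero class `x` in the kernel of the Abel–Jacobi map on `CH^j(X)_hom` with
  `h_* x = (m - dim X) x` for an integer `m ≥ 2j - 1`.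

In this case, for each such pair `L`, `Λ` (only the equation `[L, [L, Λ]] = -2 L` is needed), the
group `F^k CH^j(X)` is the sum of the eigenspaces of `[L, Λ]_*` on `CH^j(X)` for the eigenvalues
`m - dim X` with `m ≤ 2j - k`.
-/

open Pool.Agent.H914 Pool.Agent.R903 Pool.Agent.R898

universe u v w

namespace Pool.Agent.Results.MP_08891c_ag.LefschetzEquation

theorem result {k : Type u} [Field k] {𝒱 : VarClass k} {C : ChowTheory.{u, v} 𝒱}
    {W : WeilTheory.{u, v, w} C} (A : B.AJMap W) (hP : C.Polarized)
    (L : ∀ X : 𝒱.Obj, C.CH (X.prod X)) (hL : ∀ X, LB.IsLefschetzOp W X (L X)) :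
    (((∀ X, LB.Standard W X (L X)) ∧ ∃ F, B.IsBB A F) ↔ ∀ X, LB.HasPair A X (L X)) ∧
      ((∀ X, LB.Standard W X (L X)) → ∀ F, B.IsBB A F → LB.GivenByPairs W L F) :=
  LB.main A hP L hL

end Pool.Agent.Results.MP_08891c_ag.LefschetzEquation
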