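import Pool.Agent.R898.BDecEq

/-!
# The Bloch–Beilinson filtration with `F^2 = ker(AJ)` and one decomposition for each variety

Let `𝒱` be a class of smooth projective varieties which is closed under products (for example all of
them), with Chow groups `C` (rational coefficients), a Weil cohomology theory `W` and an Abel–Jacobi
map `A`.

**Theorem.** The standard conjecture of Künneth type holds for `𝒱` and a filtration with the
properties 1 to 4 of the problem exists on `𝒱` if and only if each variety `X` in `𝒱` has no phantoms
and has one Chow–Künneth decomposition `π_0, …, π_(2 dim X)` of its diagonal with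
`π_b ∘ γ ∘ π_a = 0` for all `a < b` and all `γ` in `CH^(dim X)(X × X)`, such that for all `j`, with
`F^k CH^j(X) = (π_0 + ⋯ + π_(2j - k))_* CH^j(X)`,

* `F^1 CH^j(X) = CH^j(X)_hom`,
* `F^2 CH^j(X)` is the kernel of the Abel–Jacobi map on `CH^j(X)_hom`, and
* `F^(j+1) CH^j(X) = 0`.

So the existence of the filtration, with its compatibility with all correspondences between different
varieties, can be tested one variety at a time.
-/

open Pool.Agent.H914 Pool.Agent.R903 Pool.Agent.R898

universe u v w

namespace Pool.Agent.Results.MP_08891c_ag.OneDecompositionAbelJacobi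

theorem result {k : Type u} [Field k] {𝒱 : VarClass k} {C : ChowTheory.{u, v} 𝒱}
    {W : WeilTheory.{u, v, w} C} (A : B.AJMap W) (hP : C.Polarized) :
    (W.Kunneth ∧ ∃ F, B.IsBB A F) ↔ ∀ X : 𝒱.Obj, B.HasDec A X :=
  isBB_iff_dec A hP

end Pool.Agent.Results.MP_08891c_ag.OneDecompositionAbelJacobi
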