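import Pool.Agent.R904.BB.StmtEq

/-!
# A Bloch–Beilinson filtration exists for all varieties simultaneously if and only if one exists
# for each variety separately

Let `𝒱` be a class of smooth projective varieties which is closed under products (for example all of
them), with Chow groups `C` (rational coefficients), a Weil cohomology theory `W` and an Abel–Jacobi
map `A`. No standard conjecture is assumed. Let `𝒮` be a class of varieties in `𝒱` such that each
variety in `𝒱` is dominated by a variety in `𝒮` (for example `𝒮 = 𝒱`).

**Theorem.** A system of filtrations with the properties 1 to 4 of the problem exists for all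
varieties in `𝒱` simultaneously

* if and only if for each single variety `X` in `𝒮` there are filtrations of the groups `CH^j(X)` with
  these properties, where 3 and 4 are required only for the self-correspondences of `X`, and
* if and only if for each `X` in `𝒮` and all `j` the classes in `CH^j(X)` of level `j + 1` are zero;
  here the level is defined by chains of self-correspondences of `X`: homologically trivial classes
  have level `1`, classes in the kernel of the Abel–Jacobi map have level `2`, and `Γ_* x` has level
  `k + 1` if `x ∈ CH^i(X)` has level `k` and `Γ` acts as zero on `H^(2i - k)(X)`.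

If such systems exist, then there is a smallest one.
-/

open Pool.Agent.H914 Pool.Agent.R903 Pool.Agent.R898 Pool.Agent.R904

universe u v w

namespace Pool.Agent.Results.MP_08891c_ag.OneVarietyAtATime

theorem result {k : Type u} [Field k] {𝒱 : VarClass k} {C : ChowTheory.{u, v} 𝒱}
    {W : WeilTheory.{u, v, w} C} (A : B.AJMap W) (hP : C.Polarized) (𝒮 : 𝒱.Obj → Prop)
    (h𝒮 : BB.Dominates C 𝒮) :
    (BB.HasBB A (fun _ => True) ↔ ∀ X, 𝒮 X → BB.HasBB A (fun Y => Y = X)) ∧
      (BB.HasBB A (fun _ => True) ↔ ∀ X, 𝒮 X → BB.LevelsVanish A X) ∧
      (BB.HasBB A (fun _ => True) → BB.HasSmallestBB A (fun _ => True)) :=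
  BB.main A hP 𝒮 h𝒮

end Pool.Agent.Results.MP_08891c_ag.OneVarietyAtATime
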